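import Pool.Agent.Lib.MP_830418_an.Main

/-!
Problem MP_830418_an, question Q1, for the groups containing a nonabelian free subgroup: for every
`p ∈ (1, ∞)`, `p ≠ 2`, there is a `p`-convolver `f` such that `f*` is not a `p`-convolver.
-/

namespace Pool.Agent.Results.MP_830418_an.ContainsFree

/-- If `G` contains a nonabelian free subgroup, then for every `p ∈ (1, ∞)` with `p ≠ 2` there is
a function `f` with nonnegative values that convolves `ℓ^p(G)` boundedly while `f*` does not. -/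
theorem result {G : Type*} [Group G] (φ : FreeGroup (Fin 2) →* G) (hφ : Function.Injective φ)
    (p : ℝ) (hp : 1 < p) (hp2 : p ≠ 2) :
    ∃ f : G → ℂ, (∀ x, ∃ r : ℝ, 0 ≤ r ∧ f x = r) ∧
      (∃ C : ℝ, ∀ ξ : G →₀ ℂ,
        Summable (fun g : G => ‖∑ k ∈ ξ.support, f (g * k⁻¹) * ξ k‖ ^ p) ∧
        ∑' g : G, ‖∑ k ∈ ξ.support, f (g * k⁻¹) * ξ k‖ ^ p ≤ C * ∑ k ∈ ξ.support, ‖ξ k‖ ^ p) ∧
      ¬ (∃ C : ℝ, ∀ ξ : G →₀ ℂ,
        Summable (fun g : G => ‖∑ k ∈ ξ.support, starRingEnd ℂ (f ((g * k⁻¹)⁻¹)) * ξ k‖ ^ p) ∧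
        ∑' g : G, ‖∑ k ∈ ξ.support, starRingEnd ℂ (f ((g * k⁻¹)⁻¹)) * ξ k‖ ^ p
          ≤ C * ∑ k ∈ ξ.support, ‖ξ k‖ ^ p) :=
  Pool.Agent.Lib.MP_830418_an.exists_convolver φ hφ hp hp2

end Pool.Agent.Results.MP_830418_an.ContainsFree
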