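import Pool.Agent.Lib.MP_830418_an.Flat.Final

/-!
Problem MP_830418_an, question Q1, for the groups that have elements of unbounded order, or finite
subgroups of unbounded order, relative to the elements with finitely many conjugates: for every
`p ∈ (1, ∞)`, `p ≠ 2`, there is a `p`-convolver `f` such that `f*` is not a `p`-convolver.
-/

namespace Pool.Agent.Results.MP_830418_an.UnboundedOrders

/-- Let `G` be a group such that for every `n` either `a, a², ..., aⁿ` all have infinitely many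
conjugates for some `a`, or there is a finite subgroup of order at least `n` all of whose nonidentity
elements have infinitely many conjugates.  Then for every `p ∈ (1, ∞)`, `p ≠ 2`, there is a function
`f` that convolves `ℓ^p(G)` boundedly while `f*` does not. -/
theorem result {G : Type*} [Group G]
    (hG : ∀ n : ℕ,
      (∃ a : G, ∀ k : ℕ, 0 < k → k ≤ n → (Set.range fun g : G => g * a ^ k * g⁻¹).Infinite) ∨
      ∃ H : Subgroup G, Finite H ∧ n ≤ Nat.card H ∧
        ∀ x ∈ H, x ≠ 1 → (Set.range fun g : G => g * x * g⁻¹).Infinite)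
    (p : ℝ) (hp : 1 < p) (hp2 : p ≠ 2) :
    ∃ f : G → ℂ,
      (∃ C : ℝ, ∀ ξ : G →₀ ℂ,
        Summable (fun g : G => ‖∑ k ∈ ξ.support, f (g * k⁻¹) * ξ k‖ ^ p) ∧
        ∑' g : G, ‖∑ k ∈ ξ.support, f (g * k⁻¹) * ξ k‖ ^ p ≤ C * ∑ k ∈ ξ.support, ‖ξ k‖ ^ p) ∧
      ¬ (∃ C : ℝ, ∀ ξ : G →₀ ℂ,
        Summable (fun g : G => ‖∑ k ∈ ξ.support, starRingEnd ℂ (f ((g * k⁻¹)⁻¹)) * ξ k‖ ^ p) ∧
        ∑' g : G, ‖∑ k ∈ ξ.support, starRingEnd ℂ (f ((g * k⁻¹)⁻¹)) * ξ k‖ ^ p
          ≤ C * ∑ k ∈ ξ.support, ‖ξ k‖ ^ p) :=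
  Pool.Agent.PC.final G hG p hp hp2

end Pool.Agent.Results.MP_830418_an.UnboundedOrders
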